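import Pool.Agent.Y479.LS.Strip

set_option autoImplicit false

/-!
# A circle around three strands of a link with nested tangles of both signs

The starting theorem `EncircledAlternatingLinks` (under `MP_9ae2f3_gt`) treats a link `L` with an
alternating diagram (crossings may be replaced by positive rational tangles) and an unknotted circle
`A` that encircles three strands of it. Here every crossing is replaced by an arbitrary valid nested
tangle (`Pool.Agent.Y479.LS.Term`, see `NestedTangles`), which is far from alternating: it may
contain arbitrarily many tangles of the wrong sign.

Let `Y` be the double cover of the exterior of `A`, branched along `L`, whose covering involution is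
nontrivial over the meridian of `A` and over the longitude `μ` of `A`. The boundary torus of `Y` has
the basis `t, t₁`, the lifts of `meridian * μ⁻¹` and `meridian * μ`; `Y(a, b)` is the Dehn filling
with slope `t ^ a * t₁ ^ b`. So `Y(1, 0)` and `Y(0, 1)` are the double branched covers of the links
obtained from `L` by a positive or negative full twist on the three strands, `Y(1, 1)` is the double
branched cover of `L ∪ A`.

The diagram is cut along an arc that crosses the three strands. This gives a diagram in a strip
(`Strip`): along the left side, from top to bottom, we see the regions `top` (white), `bL` (black),
`wL` (white), `bot` (black), along the right side `top`, `bR`, `wR`, `bot`. The group `D.Grp a b` has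
generators for the regions (`top` and `bot` are `1`) and for the inner regions of the tangles and a
stable letter `m`; the relations are `b₂⁻¹ b₁ = w₁⁻¹ w₂` for every crossing (the inverse on one side
for crossings of the other sign) inside the tangles, the two relations by which `m` conjugates
`x = top⁻¹ w`, `y = b⁻¹ bot` on the left side to the inverses of `x, y` on the right side, and
`t ^ a * t₁ ^ b = 1`.

The proof. In an action on a complete linear order, the voltage and the current of a valid nested
tangle move all points in the same direction (`Term.main`). So the maximum principle holds for the
white and for the black regions of the strip, and the sign analysis of the starting theorem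
(`Pool.Agent.TH335.LS.Sys.trivial`) applies; where all regions of the strip fix a point, the inner
regions of the tangles do as well (`Term.fix`).
-/

namespace Pool.Agent.Results.MP_3d425c_gt.EncircledNestedLinks

open Pool.Agent.Y479.LS

/-- **Nested tangles and a circle around three strands.** For every diagram `D` in a strip with valid
nested tangles in place of the crossings, and all `a, b ≥ 0`, not both `0`, every homomorphism from
the group of `Y(a, b)` to a left-orderable group is trivial; in particular this group is not
left-orderable. Such diagrams exist for any two valid nested tangles (`twoCrossings`). -/
theorem result :
    (∀ (D : Strip) (a b : ℕ), (a, b) ≠ (0, 0) →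
      (∀ (H : Type) [Group H], LeftOrderable H → ∀ (f : D.Grp a b →* H) (g : D.Grp a b), f g = 1) ∧
        ¬ LeftOrderable (D.Grp a b)) ∧
    (∀ Q : Fin 2 → Term, (∀ c, (Q c).Valid) → ∃ (D : Strip) (e : Fin 2 ≃ D.C),
      ∀ c, D.Q (e c) = Q c) := by
  refine ⟨fun D a b hab => ⟨fun H _ hH f g => D.hom_trivial a b hab H hH f g, fun h => ?_⟩,
    fun Q hQ => ⟨twoCrossings Q hQ, Equiv.refl _, fun _ => rfl⟩⟩
  obtain ⟨x, y, hxy⟩ := h.1
  exact hxy ((D.hom_trivial a b hab _ h (MonoidHom.id _) x).trans
    (D.hom_trivial a b hab _ h (MonoidHom.id _) y).symm)

end Pool.Agent.Results.MP_3d425c_gt.EncircledNestedLinks
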