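import Pool.Agent.Y479.LS.Farey

set_option autoImplicit false

/-!
# Sums of alternating tangles that contain rational tangles

Let `T 0, ..., T k` and `T'` be alternating tangle diagrams (`Pool.Agent.Y479.LS.Tangle`; the regions
at the boundary circle are `west`, `east` (white), `north`, `south` (black)). Put `T 0, ..., T k` and
`n` more crossings of the same sign below each other, so that all of them are adjacent to the same
white regions `west` and `east`, and close this sum with the mirror image of `T'` to a link `L`, the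
closure of `T 0 + ... + T k + n - T'`. The group `Sum.Grp T T' n` is the fundamental group of the
double branched cover of `L`.

We say that a tangle contains the rational tangle `s / (s m + 1)` if its white graph has a walk of
length `m` from `west` to a region `v`, and there are at least `s` crossings between `v` and `east`.

The theorem: let `r ≥ 0`, `s ≥ 0` (put `M = r + 2`, `t = s + 1`), and suppose that three different
summands `T i`, `T j`, `T l`, where `T i` is above or below both others, contain the rational tangles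
`(M - 1) / M`, `t / (t M + 1)` and `1 / ((t + 1) M + 1)`, and that `T'` has a walk of length `n + 1`
from `north` to `south` in its black graph (for `n = 0`: a crossing adjacent to both). Then the
fundamental group of the double branched cover of `L` has no nontrivial homomorphism to a left-orderable
group.

For rational tangles `T i` and a crossing `T'` this is the statement that the Seifert manifold
`M(-1; (M - 1) / M, t / (t M + 1), 1 / ((t + 1) M + 1))` has no horizontal foliation; these are the
extremal triples of Jankins and Neumann for the Farey neighbours `(M - 1) / M < ((M - 1) t + 1) /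
(M t + 1)`, and if one of the three invariants is made smaller then there is a horizontal foliation.
-/

namespace Pool.Agent.Results.MP_3d425c_gt.FareyTangleSums

open Pool.Agent.Y479.LS

section positive

variable {k : ℕ} {T : Fin (k + 1) → Tangle} {T' : Tangle} {n : ℕ}

/-- A solution of the inequalities. -/
structure Data (T : Fin (k + 1) → Tangle) (T' : Tangle) (n : ℕ) {P : Type*} [Group P]
    [PartialOrder P] (g S : P) (A : Fin (k + 1) → P) : Prop where
  cur : ∀ i, 1 < A i
  rat : ∀ i (m s : ℕ), (T i).Contains m s → ((A i ^ m)⁻¹ * g) ^ s ≤ A i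
  triple : ∀ i j l, i < j → j < l → A i * A j * A l ≤ S
  walk : ∀ d : ℕ, Walk T'.b₁ T'.b₂ d T'.north T'.south → S * g ^ n ≤ g ^ d

theorem data {X : Type*} [LinearOrder X] [Nonempty X]
    {w : ∀ i, (T i).W → Aut X} {b : ∀ i, (T i).B → Aut X} {w' : T'.W → Aut X} {b' : T'.B → Aut X}
    (h : ∀ i, (T i).Rep (w i) (b i)) (h' : T'.Rep w' b') (hw' : w' T'.west = 1)
    (hb' : b' T'.north = 1) (hw : ∀ i, w i (T i).west = w' T'.west)
    (he : ∀ i, w i (T i).east = w' T'.east) (h0 : b 0 (T 0).north = b' T'.north)
    (hi : ∀ i : Fin k, b i.castSucc (T i.castSucc).south = b i.succ (T i.succ).north)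
    (hl : b (Fin.last k) (T (Fin.last k)).south * ((w' T'.west)⁻¹ * w' T'.east) ^ n =
      b' T'.south)
    (hpos : ∀ x, x < w' T'.east x) :
    ∃ (g S : Aut X) (A : Fin (k + 1) → Aut X), Data T T' n g S A := by
  obtain ⟨B3, B4, -⟩ := Tangle.bounds h' hw' hb' hpos
  set g := w' T'.east with hg
  set N : Fin (k + 1) → Aut X := fun i => b i (T i).north with hN
  set S : Fin (k + 1) → Aut X := fun i => b i (T i).south with hS
  set A : Fin (k + 1) → Aut X := fun i => (N i)⁻¹ * S i with hA
  have hrep : ∀ i, (T i).Rep (w i) (fun v => (N i)⁻¹ * b i v) := by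
    intro i c
    rw [← h i c]; group
  have hbd : ∀ i, Bounds (w i) (T i).west (T i).east ∧
      Bounds (fun v => (N i)⁻¹ * b i v) (T i).north (T i).south := by
    intro i
    obtain ⟨h1, h2, -⟩ := Tangle.bounds (hrep i) ((hw i).trans hw') (inv_mul_cancel _)
      (by rw [he i]; exact hpos)
    exact ⟨h1, h2⟩
  have hA1 : ∀ i, 1 < A i := fun i => (hbd i).2.pos _ (T i).black.ne.symm
  have hrat : ∀ i (m s : ℕ), (T i).Contains m s → ((A i ^ m)⁻¹ * g) ^ s ≤ A i := by
    rintro i m s ⟨v, h1, h2⟩
    have := (T i).white.contains_le (hrep i).white (hbd i).1 (hbd i).2 h1 h2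
    rwa [he i] at this
  have hNS : ∀ i, N i ≤ S i := by
    intro i
    have := mul_le_mul_right (hA1 i).le (N i)
    rwa [mul_one, hA, mul_inv_cancel_left] at this
  have hstack : ∀ j, 1 ≤ N j ∧ ∀ i, i < j → S i ≤ N j := by
    intro j
    induction j using Fin.induction with
    | zero =>
      refine ⟨?_, fun i hi => absurd hi (Fin.not_lt_zero i)⟩
      exact le_of_eq (h0.trans hb').symm
    | succ j ih =>
      have e1 : N j.succ = S j.castSucc := (hi j).symm
      rw [e1]
      refine ⟨ih.1.trans (hNS _), fun i hij => ?_⟩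
      rcases (Fin.le_castSucc_iff.mpr hij).lt_or_eq with h1 | h1
      · exact (ih.2 i h1).trans (hNS _)
      · rw [h1]
  have hlast : ∀ l, S l ≤ S (Fin.last k) := by
    intro l
    rcases (Fin.le_last l).lt_or_eq with h1 | h1
    · exact ((hstack _).2 l h1).trans (hNS _)
    · rw [h1]
  have hAS : ∀ i, A i ≤ S i := fun i =>
    mul_le_of_le_one_left' (inv_le_one'.mpr (hstack i).1)
  have hAA : ∀ i j, i < j → A j ≤ (S i)⁻¹ * S j := fun i j hij =>
    mul_le_mul_left (inv_le_inv_iff.mpr ((hstack j).2 i hij)) _
  have hpair : ∀ i j, i < j → A i * A j ≤ S j := by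
    intro i j hij
    calc A i * A j ≤ S i * ((S i)⁻¹ * S j) := mul_le_mul' (hAS i) (hAA i j hij)
      _ = S j := mul_inv_cancel_left _ _
  rw [hw', inv_one, one_mul] at hl
  refine ⟨g, S (Fin.last k), A, hA1, hrat, fun i j l hij hjl => ?_, fun d hd => ?_⟩
  · calc A i * A j * A l ≤ S j * ((S j)⁻¹ * S l) := mul_le_mul' (hpair i j hij) (hAA j l hjl)
      _ = S l := mul_inv_cancel_left _ _
      _ ≤ S (Fin.last k) := hlast l
  · have k1 := (T'.black.voltage_le h'.black B3 B4 hd).1
    rwa [← hl] at k1

end positive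

/-- If the inequalities have no solution then the group is not left-orderable. -/
theorem not_leftOrderable {k : ℕ} {T : Fin (k + 1) → Tangle} {T' : Tangle} {n : ℕ}
    (hno : ∀ (X : Type) [LinearOrder X] [Nonempty X] (g S : Aut X) (A : Fin (k + 1) → Aut X),
      ¬ Data T T' n g S A) :
    (∀ (H : Type) [Group H], LeftOrderable H → ∀ (f : Sum.Grp T T' n →* H)
      (γ : Sum.Grp T T' n), f γ = 1) ∧ ¬ LeftOrderable (Sum.Grp T T' n) := by
  have key : ∀ (H : Type) [Group H], LeftOrderable H → ∀ (f : Sum.Grp T T' n →* H)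
      (γ : Sum.Grp T T' n), f γ = 1 := by
    intro H _ hH f γ
    refine hom_trivial (Sum.W' T'.east) (fun X _ φ x hx γ => Sum.fix_all φ x hx γ)
      (fun X _ _ φ hpos => ?_) H hH f γ
    obtain ⟨g, S, A, hd⟩ := data (fun i => (Sum.rep i).map φ) (Sum.rep'.map φ) (n := n)
      (by rw [Sum.west_one, map_one]) (by rw [Sum.north_one, map_one])
      (fun i => by rw [Sum.west_eq]) (fun i => by rw [Sum.east_eq]) (by rw [Sum.north_eq])
      (fun i => by rw [Sum.stack_eq])
      (by rw [← Sum.south_eq]; simp only [map_mul, map_inv, map_pow]) hpos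
    exact hno X g S A hd
  refine ⟨key, fun hG => ?_⟩
  obtain ⟨x, y, hxy⟩ := hG.1
  have h1 := key _ hG (MonoidHom.id _) x
  have h2 := key _ hG (MonoidHom.id _) y
  simp only [MonoidHom.id_apply] at h1 h2
  exact hxy (by rw [h1, h2])

section algebra
variable {P : Type*} [Group P] [PartialOrder P] [MulLeftMono P] [MulRightMono P]

/-- From the certificate of `(M - 1) / M` for `a₀` and `a₀ x ≤ g`: `x ^ M ≤ g`. -/
theorem pow_le_of_first {a₀ x g : P} {r : ℕ} (h : a₀ * x ≤ g)
    (hc : ((a₀ ^ 1)⁻¹ * g) ^ (r + 1) ≤ a₀) : x ^ (r + 2) ≤ g := by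
  have h1 : x ≤ (a₀ ^ 1)⁻¹ * g := by
    rw [pow_one, le_inv_mul_iff_mul_le]; exact h
  rw [pow_succ]
  exact (mul_le_mul_left ((pow_le_pow_of_le h1 _).trans hc) _).trans h

theorem pow_le_of_last {a₀ x g : P} {r : ℕ} (h : x * a₀ ≤ g)
    (hc : ((a₀ ^ 1)⁻¹ * g) ^ (r + 1) ≤ a₀) : x ^ (r + 2) ≤ g := by
  have hc' : (g * a₀⁻¹) ^ (r + 1) ≤ a₀ := by
    have := mul_le_mul_left (mul_le_mul_right hc a₀) a₀⁻¹
    rw [pow_conj, pow_one, mul_inv_cancel_right, mul_inv_cancel_left] at this
    exact this
  have h1 : x ≤ g * a₀⁻¹ := le_mul_inv_iff_mul_le.mpr h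
  rw [pow_succ']
  exact (mul_le_mul_right ((pow_le_pow_of_le h1 _).trans hc') _).trans h

end algebra

/-- **Sums of alternating tangles that contain rational tangles.** -/
theorem result (k n r s : ℕ) (T : Fin (k + 1) → Tangle) (T' : Tangle) (i j l : Fin (k + 1))
    (hjl : j ≠ l) (hi : (i < j ∧ i < l) ∨ (j < i ∧ l < i))
    (h1 : (T i).Contains 1 (r + 1)) (h2 : (T j).Contains (r + 2) (s + 1))
    (h3 : (T l).Contains ((s + 2) * (r + 2)) 1)
    (hT' : Walk T'.b₁ T'.b₂ (n + 1) T'.north T'.south) :
    (∀ (H : Type) [Group H], LeftOrderable H → ∀ (f : Sum.Grp T T' n →* H)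
      (γ : Sum.Grp T T' n), f γ = 1) ∧ ¬ LeftOrderable (Sum.Grp T T' n) := by
  refine not_leftOrderable fun X _ _ g S A D => ?_
  have hS : S ≤ g := by
    have := D.walk (n + 1) hT'
    rw [pow_succ'] at this
    exact le_of_mul_le_mul_right' this
  have c1 := D.rat i 1 (r + 1) h1
  have c2 := D.rat j (r + 2) (s + 1) h2
  have c3 : g ≤ A l ^ ((s + 2) * (r + 2) + 1) := by
    have := D.rat l _ 1 h3
    rw [pow_one, inv_mul_le_iff_le_mul, ← pow_succ] at this
    exact this
  have hg : (A j * A l) ^ (r + 2) ≤ g ∨ (A l * A j) ^ (r + 2) ≤ g := by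
    rcases hi with ⟨h4, h5⟩ | ⟨h4, h5⟩
    · rcases lt_or_gt_of_ne hjl with h6 | h6
      · left
        refine pow_le_of_first ?_ c1
        rw [← mul_assoc]
        exact (D.triple i j l h4 h6).trans hS
      · right
        refine pow_le_of_first ?_ c1
        rw [← mul_assoc]
        exact (D.triple i l j h5 h6).trans hS
    · rcases lt_or_gt_of_ne hjl with h6 | h6
      · left
        exact pow_le_of_last ((D.triple j l i h6 h5).trans hS) c1
      · right
        exact pow_le_of_last ((D.triple l j i h6 h4).trans hS) c1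
  exact farey (D.cur l) hg c2 c3

end Pool.Agent.Results.MP_3d425c_gt.FareyTangleSums
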