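import Pool.Agent.Y479.LS.Nested

set_option autoImplicit false

/-!
# Links with many tangles of opposite sign and non-left-orderable double branched covers

Links whose diagrams are alternating up to one tangle of the wrong sign have been treated before
(`ShortWalks`, `OppositeTangles` under `MP_9ae2f3_gt`). Here there may be arbitrarily many tangles of
the wrong sign, which may be nested to any depth.

`Term` is the class of tangles that is obtained from a crossing by

* `node T Q`: replace every crossing `c` of an alternating tangle diagram `T`
  (`Pool.Agent.Y479.LS.Tangle`) by a tangle `Q c`;
* `sum Q k Q'`: put `Q`, then `k` crossings, then the mirror image of `Q'` below each other, so that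
  all of them are adjacent to the same white regions `west`, `east` (the tangle `Q + k - Q'`);
* `prod Q k Q'`: put `Q`, then `k` crossings, then the mirror image of `Q'` beside each other, so that
  all of them are adjacent to the same black regions `north`, `south`.

`black t d` (`white t d`) says that there is a walk of length `d` between the black (white) poles of
`t` in the checkerboard graph of this colour: a crossing has length `1`; in `node T Q` one walks in
the checkerboard graph of `T`, where passing the crossing `c` costs the length of a walk in `Q c`; in
`Q + k - Q'` the black poles are joined by a walk through `Q` and through the `k` crossings, the
white poles by a walk in `Q` (and with the colours exchanged for the product).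

A tangle is `Valid` if in every sum `Q + k - Q'` that occurs in its construction the black poles of
`Q'` are joined by a walk of length at most `k`, and in every product the white poles of `Q'`.
For instance, `Q'` may be any alternating tangle diagram and `k` the distance of its black poles, or
`Q'` may be of the form `node T R`, where the tangles `R c` contain further sums and products.

`Grp t numerator` is the fundamental group of the double branched cover of the closure of `t`
(`numerator = true`: the regions north and south become one region; `numerator = false`: the regions
west and east become one region). It is generated by the regions, with the relation
`b₂⁻¹ b₁ = w₁⁻¹ w₂` for a crossing with corners `w₁, b₁, w₂, b₂` in counterclockwise order whose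
overpass separates `w₁, b₁` from `w₂, b₂` (`b₁⁻¹ b₂ = w₁⁻¹ w₂` for the other sign), where one white
and one black region are trivial. The tangle that replaces a crossing has the poles
`west = w₁`, `east = w₂`, `north = b₂`, `south = b₁`. In `Q + k - Q'` the region below `Q` is `m`,
the region below the `k` crossings is `m (west⁻¹ east)^k`, and the mirror image of `Q'` has this
region as the pole `south` of `Q'` and the lowest region as the pole `north` of `Q'`.

The proof. Let the group act on a linear order. By induction over the construction, in every valid
tangle the voltage `V = west⁻¹ east` and the current `A = north⁻¹ south` move every point in the same
direction, and `A ≤ V ^ d` where they move points up, `d` the length of a walk between the black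
poles, and `V ≤ A ^ d` for the white poles. For `node T Q` the first assertion is a maximum principle
at every point, the second one follows from the maximum principle for both colours. For `Q + k - Q'`
the current is `A(Q) V ^ k A(Q')⁻¹`, where `A(Q')` is at most `V ^ k`. The closure of the tangle
makes `V` or `A` trivial.
-/

namespace Pool.Agent.Results.MP_3d425c_gt.NestedTangles

open Pool.Agent.Y479.LS

/-- **Nested tangles of both signs.** For a valid tangle `t` every homomorphism from the fundamental
group of the double branched cover of a closure of `t` to a left-orderable group is trivial; in
particular this group is not left-orderable. -/
theorem result (t : Term) (ht : t.Valid) (numerator : Bool) :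
    (∀ (H : Type) [Group H], LeftOrderable H → ∀ (f : t.Grp numerator →* H)
      (γ : t.Grp numerator), f γ = 1) ∧ ¬ LeftOrderable (t.Grp numerator) := by
  have key : ∀ (H : Type) [Group H], LeftOrderable H → ∀ (f : t.Grp numerator →* H)
      (γ : t.Grp numerator), f γ = 1 := by
    intro H _ hH f γ
    refine hom_trivial 1 (fun X _ φ x _ γ => Term.fix_all ht φ x γ)
      (fun X _ hX φ h => ?_) H hH f γ
    obtain ⟨x⟩ := hX
    have := h x
    rw [map_one, Aut.one_apply] at this
    exact lt_irrefl _ this
  refine ⟨key, fun hG => ?_⟩
  obtain ⟨x, y, hxy⟩ := hG.1
  have h1 := key _ hG (MonoidHom.id _) x
  have h2 := key _ hG (MonoidHom.id _) y
  simp only [MonoidHom.id_apply] at h1 h2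
  exact hxy (by rw [h1, h2])

end Pool.Agent.Results.MP_3d425c_gt.NestedTangles
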